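import Pool.Agent.MP_66cee2_co.F.Main

/-! A map that keeps unit distances and is no isometry gives locally constant labels. -/

namespace Pool.Agent.MP_66cee2_co.TL

open Set Filter Topology Pool.Agent.MP_66cee2_co.X Pool.Agent.MP_66cee2_co.D
open scoped RealInnerProductSpace

theorem pick {X L : Type} [TopologicalSpace X] [Inhabited L] (O : L → Set X)
    (ho : ∀ v, IsOpen (O v)) (hd : Dense (⋃ v, O v)) :
    ∃ (U : Set X) (l : X → L), IsOpen U ∧ Dense U ∧ (∀ x ∈ U, ∀ᶠ y in 𝓝 x, l y = l x) ∧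
      ∀ x ∈ U, x ∈ O (l x) := by
  classical
  have wf : WellFounded (@WellOrderingRel L) := IsWellFounded.wf
  let l : X → L := fun x => if h : {v | x ∈ O v}.Nonempty then wf.min _ h else default
  refine ⟨interior {x | x ∈ O (l x) ∧ ∀ᶠ y in 𝓝 x, l y = l x}, l, isOpen_interior,
    dense_iff_inter_open.2 fun W hW hne => ?_, fun x hx => (interior_subset hx).2,
    fun x hx => (interior_subset hx).1⟩
  have hS : {v | (W ∩ O v).Nonempty}.Nonempty := by
    obtain ⟨x, h1, h2⟩ := hd.inter_open_nonempty W hW hne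
    obtain ⟨v, hv⟩ := mem_iUnion.1 h2
    exact ⟨v, x, h1, hv⟩
  have key : ∀ y ∈ W ∩ O (wf.min _ hS), l y = wf.min _ hS := fun y hy => by
    have h : {v | y ∈ O v}.Nonempty := ⟨_, hy.2⟩
    have e : l y = wf.min _ h := dif_pos h
    rw [e]
    rcases trichotomous_of WellOrderingRel (wf.min _ h) (wf.min _ hS) with g | g | g
    · have m : wf.min _ h ∈ {v | (W ∩ O v).Nonempty} := ⟨y, hy.1, wf.min_mem _ h⟩
      exact absurd g (wf.not_lt_min _ m)
    · exact g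
    · have m : wf.min _ hS ∈ {v | y ∈ O v} := hy.2
      exact absurd g (wf.not_lt_min _ m)
  have hop := hW.inter (ho (wf.min _ hS))
  obtain ⟨x, hx⟩ := wf.min_mem _ hS
  refine ⟨x, hx.1, interior_maximal (fun y hy => ?_) hop hx⟩
  rw [mem_ofPred_eq, key y hy]
  exact ⟨hy.2, Filter.eventually_of_mem (hop.mem_nhds hy) key⟩

variable {n : ℕ}

/-- the Euclidean part of a label. -/
def pa (v : Ix n → ℝ) : E (n + 1) :=
  WithLp.toLp 2 (Fin.cons (v sI + v (Sum.inr false)) fun i => 2 * v (Sum.inl i))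

/-- the time part of a label. -/
def pt (v : Ix n → ℝ) : ℝ := v sI - v (Sum.inr false)

theorem inner_pa (v v' : Ix n → ℝ) : ⟪pa v, pa v'⟫ = pt v * pt v' + 2 * lz v v' := by
  simp only [pa, pt, lz, Jv, sI, dotProduct, PiLp.inner_apply, Fin.sum_univ_succ, Fin.cons_zero,
    Fin.cons_succ, Fintype.sum_sum_type, Fintype.sum_bool, RCLike.inner_apply, conj_trivial,
    Bool.not_true, Bool.not_false, mul_add, Finset.mul_sum]
  rw [Finset.sum_congr rfl fun i _ => show 2 * v' (Sum.inl i) * (2 * v (Sum.inl i)) =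
    2 * (v (Sum.inl i) * (2 * v' (Sum.inl i))) by ring]
  ring

theorem main (d n : ℕ) (hd : 3 ≤ d) (f : E d → E n)
    (hf : ∀ x y, ‖x - y‖ = 1 → ‖f x - f y‖ = 1) (hne : ∃ x y, ‖f x - f y‖ ≠ ‖x - y‖) :
    ∃ (U : Set (E d)) (a : E d → E (n + 1)) (t : E d → ℝ), IsOpen U ∧ Dense U ∧
      (∀ x ∈ U, ∀ᶠ y in 𝓝 x, a y = a x ∧ t y = t x) ∧ (∀ x ∈ U, t x ^ 2 < ‖a x‖ ^ 2) ∧
      ∀ x ∈ U, ∀ y ∈ U, ‖x - y‖ = 1 → ⟪a x, a y⟫ = t x * t y := by
  obtain ⟨O, hO⟩ : ∃ O : (Ix n → ℝ) → Set (E d), Fam O := by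
    by_contra h
    obtain ⟨x, y, hxy⟩ := hne
    exact hxy (F.allIso_noFam d n hd (fun O hO => h ⟨O, hO⟩) f hf x y)
  obtain ⟨U, l, h1, h2, h3, h4⟩ := pick O hO.opn hO.dense
  refine ⟨U, fun x => pa (l x), fun x => pt (l x), h1, h2,
    fun x hx => (h3 x hx).mono fun y hy => by simp [hy], fun x hx => ?_, fun x hx y hy h => ?_⟩
  · have := hO.pos _ ⟨x, h4 x hx⟩
    rw [← real_inner_self_eq_norm_sq, inner_pa]
    linarith [sq (pt (l x))]
  · rw [inner_pa, hO.orth _ _ x y (h4 x hx) (h4 y hy) h, mul_zero, add_zero]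

end Pool.Agent.MP_66cee2_co.TL
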